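import Pool.Agent.Helper601.BT

set_option autoImplicit false

/-!
Summability of the weights of the pairs of primes with small gaps.
-/

namespace Pool.Agent.V11287.MS

open Finset Filter Topology

lemma sum_block {f : ℕ → ℝ} (K : ℕ) :
    ∑ i ∈ range (2 ^ K), f i = f 0 + ∑ k ∈ range K, ∑ i ∈ Ico (2 ^ k) (2 ^ (k + 1)), f i := by
  induction K with
  | zero => simp
  | succ K ih =>
    rw [Finset.sum_range_succ, ← add_assoc, ← ih,
      Finset.sum_range_add_sum_Ico _ (Nat.pow_le_pow_right (by norm_num) (Nat.le_succ K))]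

lemma summable_blocks {f : ℕ → ℝ} (h0 : ∀ n, 0 ≤ f n) {b : ℕ → ℝ} (hb : Summable b)
    (hb0 : ∀ n, 0 ≤ b n) (h : ∀ k, ∑ i ∈ Ico (2 ^ k) (2 ^ (k + 1)), f i ≤ b k) : Summable f := by
  refine summable_of_sum_range_le (c := f 0 + ∑' k, b k) h0 fun n => ?_
  calc ∑ i ∈ range n, f i ≤ ∑ i ∈ range (2 ^ n), f i :=
        Finset.sum_le_sum_of_subset_of_nonneg (range_mono Nat.lt_two_pow_self.le)
          fun i _ _ => h0 i
    _ = f 0 + ∑ k ∈ range n, ∑ i ∈ Ico (2 ^ k) (2 ^ (k + 1)), f i := sum_block n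
    _ ≤ f 0 + ∑ k ∈ range n, b k := by
        gcongr with k _
        exact h k
    _ ≤ _ := by
        gcongr
        exact hb.sum_le_tsum _ fun i _ => hb0 i

open Classical in
lemma prime_sum {δ : ℝ} (hδ : 0 < δ) :
    Summable (fun n : ℕ => if n.Prime then 1 / (n * (Real.log n) ^ δ) else 0) := by
  obtain ⟨C, hC1, hBT⟩ := Pool.Agent.Helper601.brun_titchmarsh
  have hl2 : 0 < Real.log 2 := Real.log_pos (by norm_num)
  set A : ℝ := C / (Real.log 2) ^ (1 + δ) with hA
  have hA0 : 0 < A := by positivity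
  have hsum : Summable (fun k : ℕ => A * (1 / (k : ℝ) ^ (1 + δ))) :=
    (Real.summable_one_div_nat_rpow.2 (by linarith)).mul_left A
  refine summable_blocks (fun n => ?_) hsum (fun n => by positivity) fun k => ?_
  · split_ifs with h
    · have := Real.log_natCast_nonneg n
      positivity
    · exact le_rfl
  · rcases Nat.eq_zero_or_pos k with hk | hk
    · subst hk
      have h1 : ¬ (1 : ℕ).Prime := Nat.not_prime_one
      simp only [pow_zero, zero_add, pow_one]
      have e : Ico 1 2 = ({1} : Finset ℕ) := rfl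
      rw [e, Finset.sum_singleton, if_neg h1]
      positivity
    · have hk0 : (0 : ℝ) < k := by exact_mod_cast hk
      have h2k : (2 : ℝ) ≤ ((2 ^ k : ℕ) : ℝ) := by
        have : 2 ^ 1 ≤ 2 ^ k := Nat.pow_le_pow_right (by norm_num) hk
        exact_mod_cast this
      have h2k0 : (0 : ℝ) < ((2 ^ k : ℕ) : ℝ) := by linarith
      have hlog : Real.log ((2 ^ k : ℕ) : ℝ) = k * Real.log 2 := by
        rw [Nat.cast_pow, Nat.cast_ofNat, Real.log_pow]
      have h3 := hBT (2 ^ k) 1 (2 ^ k) (by exact_mod_cast h2k) (Or.inl rfl)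
      have e1 : Ico (2 ^ k) (2 ^ (k + 1)) = (range (2 ^ k)).map (addLeftEmbedding (2 ^ k)) := by
        rw [range_eq_Ico, Finset.map_add_left_Ico, add_zero, pow_succ]
        congr 1
        ring
      rw [e1, Finset.sum_map]
      have h4 : ∑ i ∈ range (2 ^ k), (if ((addLeftEmbedding (2 ^ k)) i : ℕ).Prime then
          1 / ((((addLeftEmbedding (2 ^ k)) i : ℕ) : ℝ)
            * (Real.log (((addLeftEmbedding (2 ^ k)) i : ℕ) : ℝ)) ^ δ) else 0)
          ≤ ∑ i ∈ range (2 ^ k), (if (2 ^ k + i * 1).Prime then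
            1 / (((2 ^ k : ℕ) : ℝ) * (k * Real.log 2) ^ δ) else 0) := by
        refine Finset.sum_le_sum fun i _ => ?_
        have e2 : (addLeftEmbedding (2 ^ k)) i = 2 ^ k + i * 1 := by simp
        rw [e2]
        split_ifs with hp
        · have h5 : ((2 ^ k : ℕ) : ℝ) ≤ ((2 ^ k + i * 1 : ℕ) : ℝ) := by
            exact_mod_cast (by omega : 2 ^ k ≤ 2 ^ k + i * 1)
          have h6 : k * Real.log 2 ≤ Real.log ((2 ^ k + i * 1 : ℕ) : ℝ) := by
            rw [← hlog]
            exact Real.log_le_log h2k0 h5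
          have h7 : 0 < k * Real.log 2 := by positivity
          gcongr
        · exact le_rfl
      refine h4.trans ?_
      rw [← Finset.sum_filter, Finset.sum_const, nsmul_eq_mul]
      rw [hlog] at h3
      have h8 : (k * Real.log 2) ^ δ * (k * Real.log 2) = (k : ℝ) ^ (1 + δ) * (Real.log 2) ^ (1 + δ) := by
        rw [← Real.mul_rpow hk0.le hl2.le, add_comm, Real.rpow_add_one (by positivity)]
      calc _ ≤ C * ((2 ^ k : ℕ) : ℝ) / (k * Real.log 2)
            * (1 / (((2 ^ k : ℕ) : ℝ) * (k * Real.log 2) ^ δ)) := by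
            refine mul_le_mul_of_nonneg_right h3 ?_
            positivity
        _ = C / ((k * Real.log 2) ^ δ * (k * Real.log 2)) := by
            have h9 : (0 : ℝ) < (k * Real.log 2) ^ δ := by positivity
            field_simp
        _ = A * (1 / (k : ℝ) ^ (1 + δ)) := by
            rw [h8, hA]
            have h9 : (0 : ℝ) < (k : ℝ) ^ (1 + δ) := by positivity
            have h10 : (0 : ℝ) < (Real.log 2) ^ (1 + δ) := by positivity
            field_simp

/-- the gap -/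
noncomputable def gp (δ : ℝ) (p : ℕ) : ℝ := p / (Real.log p) ^ (1 + δ)

lemma gap_count {δ : ℝ} (hδ : 0 < δ) : ∃ C : ℝ, 0 < C ∧ ∃ P : ℕ, 3 ≤ P ∧ ∀ p : ℕ, P ≤ p →
    ((((range ⌈gp δ p⌉₊).filter (fun k => (p + k * 1).Prime)).card : ℕ) : ℝ)
      ≤ C * (gp δ p / Real.log p) := by
  obtain ⟨C, hC1, hBT⟩ := Pool.Agent.Helper601.brun_titchmarsh
  -- `gp ≥ √p` and `gp ≥ 2`
  have hlim : Tendsto (fun x : ℝ => (Real.log x) ^ (1 + δ) / x ^ (1 / 2 : ℝ)) atTop (𝓝 0) :=
    (isLittleO_log_rpow_rpow_atTop (1 + δ) (by norm_num : (0 : ℝ) < 1 / 2)).tendsto_div_nhds_zero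
  have hev := ((hlim.comp (tendsto_natCast_atTop_atTop (R := ℝ))).eventually_lt_const
    (show (0 : ℝ) < 1 by norm_num)).and ((tendsto_natCast_atTop_atTop (R := ℝ)).eventually_ge_atTop 4)
  obtain ⟨P, hP⟩ := eventually_atTop.1 hev
  refine ⟨4 * C, by positivity, max P 3, le_max_right _ _, fun p hp => ?_⟩
  obtain ⟨h1, h2⟩ := hP p ((le_max_left _ _).trans hp)
  simp only [Function.comp] at h1
  have hp0 : (0 : ℝ) < p := by linarith
  have hlog : 0 < Real.log p := Real.log_pos (by linarith)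
  have hr : (0 : ℝ) < (p : ℝ) ^ (1 / 2 : ℝ) := by positivity
  rw [div_lt_one hr] at h1
  have hL : 0 < (Real.log p) ^ (1 + δ) := by positivity
  have hg : (p : ℝ) ^ (1 / 2 : ℝ) ≤ gp δ p := by
    unfold gp
    rw [le_div_iff₀ hL]
    calc (p : ℝ) ^ (1 / 2 : ℝ) * (Real.log p) ^ (1 + δ) ≤ (p : ℝ) ^ (1 / 2 : ℝ) * (p : ℝ) ^ (1 / 2 : ℝ) := by
          gcongr
      _ = p := by
          rw [← Real.rpow_add hp0]
          norm_num
  have h2' : (2 : ℝ) ≤ (p : ℝ) ^ (1 / 2 : ℝ) := by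
    have : (2 : ℝ) = (4 : ℝ) ^ (1 / 2 : ℝ) := by
      rw [show (4 : ℝ) = 2 ^ (2 : ℝ) by norm_num, ← Real.rpow_mul (by norm_num : (0 : ℝ) ≤ 2)]
      norm_num
    exact this.le.trans (Real.rpow_le_rpow (by norm_num) h2 (by norm_num))
  set N : ℕ := ⌈gp δ p⌉₊ with hN
  have hNg : gp δ p ≤ N := Nat.le_ceil _
  have hN2 : (2 : ℝ) ≤ N := by linarith
  have h3 := hBT p 1 N (by exact_mod_cast hN2) (Or.inl rfl)
  refine h3.trans ?_
  have hNle : (N : ℝ) ≤ 2 * gp δ p := by
    have := Nat.ceil_lt_add_one (show 0 ≤ gp δ p by linarith)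
    linarith
  have hlN : Real.log p / 2 ≤ Real.log N := by
    have h4 : Real.log ((p : ℝ) ^ (1 / 2 : ℝ)) ≤ Real.log N := Real.log_le_log hr (by linarith)
    rw [Real.log_rpow hp0] at h4
    linarith
  have hg0 : 0 ≤ gp δ p := by linarith
  calc C * N / Real.log N ≤ C * (2 * gp δ p) / (Real.log p / 2) := by
        have h5 : 0 ≤ C * (2 * gp δ p) := by positivity
        exact div_le_div₀ h5 (mul_le_mul_of_nonneg_left hNle (by linarith)) (by linarith) hlN
    _ = 4 * C * (gp δ p / Real.log p) := by field_simp; ring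

end Pool.Agent.V11287.MS
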