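import Pool.Agent.V11287.MS.Abs
import Pool.Agent.V11287.MS.Gap

set_option autoImplicit false

/-!
Small gaps and affine pairs of exponents.
-/

namespace Pool.Agent.V11287.MS

open Finset Filter Topology MeasureTheory

/-- the pairs of primes with a small gap -/
def gapSet (δ : ℝ) : Set (ℕ × ℕ) :=
  {r | r.1.Prime ∧ r.2.Prime ∧ r.1 < r.2 ∧ (r.2 : ℝ) - r.1 < gp δ r.1}

lemma ind_le {R : Set (ℕ × ℕ)} {φ : ℕ × ℕ → ℝ} {r : ℕ × ℕ} {b : ℝ} (h : r ∈ R → φ r ≤ b)
    (hb : 0 ≤ b) : R.indicator φ r ≤ b := by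
  classical
  rw [Set.indicator_apply]
  split_ifs with hr
  · exact h hr
  · exact hb

lemma gap_summable {δ : ℝ} (hδ : 0 < δ) :
    Summable ((gapSet δ).indicator fun r => wt r.1 * wt r.2) := by
  classical
  set f : ℕ × ℕ → ℝ := (gapSet δ).indicator fun r => wt r.1 * wt r.2 with hf
  have hf0 : 0 ≤ f := fun r => Set.indicator_nonneg
    (fun r _ => mul_nonneg (wt_nonneg _) (wt_nonneg _)) r
  obtain ⟨C, hC, P, hP3, hcount⟩ := gap_count hδ
  set s : ℕ → Finset ℕ := fun p =>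
    ((range ⌈gp δ p⌉₊).filter (fun k => (p + k * 1).Prime)).map (addLeftEmbedding p) with hs
  have hout : ∀ p q : ℕ, q ∉ s p → f (p, q) = 0 := by
    intro p q hq
    rw [hf, Set.indicator_of_notMem]
    rintro ⟨h1, h2, h3, h4⟩
    simp only at h1 h2 h3 h4
    refine hq (Finset.mem_map.2 ⟨q - p, ?_, by simp only [addLeftEmbedding_apply]; omega⟩)
    rw [Finset.mem_filter, Finset.mem_range]
    refine ⟨?_, ?_⟩
    · rw [Nat.lt_ceil, Nat.cast_sub h3.le]
      exact h4
    · have : p + (q - p) * 1 = q := by omega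
      rw [this]
      exact h2
  rw [summable_prod_of_nonneg hf0]
  refine ⟨fun p => summable_of_ne_finset_zero (s := s p) fun q hq => hout p q hq, ?_⟩
  have hts : ∀ p, ∑' q, f (p, q) = ∑ q ∈ s p, f (p, q) := fun p =>
    tsum_eq_sum fun q hq => hout p q hq
  refine Summable.of_norm_bounded_eventually_nat ((prime_sum hδ).mul_left C) ?_
  filter_upwards [eventually_ge_atTop P] with p hp
  have hp3 : 3 ≤ p := hP3.trans hp
  have hp3' : (3 : ℝ) ≤ p := by exact_mod_cast hp3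
  have hlog : 0 < Real.log p := Real.log_pos (by linarith)
  rw [Real.norm_of_nonneg (tsum_nonneg fun q => hf0 _), hts]
  by_cases hpp : p.Prime
  · rw [if_pos hpp]
    have h1 : ∀ q ∈ s p, f (p, q) ≤ wt p * wt p := by
      intro q hq
      obtain ⟨k, -, rfl⟩ := Finset.mem_map.1 hq
      rw [hf]
      refine ind_le (fun _ => ?_) (mul_nonneg (wt_nonneg _) (wt_nonneg _))
      refine mul_le_mul_of_nonneg_left (wt_anti hp3 ?_) (wt_nonneg _)
      simp only [addLeftEmbedding_apply]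
      omega
    have h2 := Finset.sum_le_card_nsmul _ _ _ h1
    refine h2.trans ?_
    rw [hs]
    simp only [Finset.card_map, nsmul_eq_mul]
    have h3 := hcount p hp
    have hL : 0 < (Real.log p) ^ δ := by positivity
    calc _ ≤ C * (gp δ p / Real.log p) * (wt p * wt p) :=
          mul_le_mul_of_nonneg_right h3 (mul_nonneg (wt_nonneg _) (wt_nonneg _))
      _ = C * (1 / (p * (Real.log p) ^ δ)) := by
          unfold gp wt
          rw [add_comm, Real.rpow_add_one hlog.ne']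
          field_simp
  · rw [if_neg hpp, mul_zero]
    refine le_of_eq (Finset.sum_eq_zero fun q _ => ?_)
    rw [hf, Set.indicator_of_notMem]
    rintro ⟨h1, -⟩
    exact hpp h1

lemma wt_sq_summable : Summable (fun n : ℕ => wt n * wt n) := by
  have h : Summable (fun n : ℕ => 16 * (1 / (n : ℝ) ^ (3 / 2 : ℝ))) :=
    (Real.summable_one_div_nat_rpow.2 (by norm_num)).mul_left 16
  refine Summable.of_nonneg_of_le (fun n => mul_nonneg (wt_nonneg _) (wt_nonneg _)) (fun n => ?_) h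
  rcases Nat.eq_zero_or_pos n with hn | hn
  · subst hn
    unfold wt
    simp
  · have hn0 : (0 : ℝ) < n := by exact_mod_cast hn
    have h1 : Real.log n ≤ (n : ℝ) ^ (1 / 4 : ℝ) / (1 / 4) :=
      Real.log_le_rpow_div hn0.le (by norm_num)
    have h2 : 0 ≤ Real.log n := Real.log_natCast_nonneg n
    have h3 : Real.log n * Real.log n ≤ 16 * ((n : ℝ) ^ (1 / 4 : ℝ) * (n : ℝ) ^ (1 / 4 : ℝ)) := by
      have h4 : Real.log n ≤ 4 * (n : ℝ) ^ (1 / 4 : ℝ) := by linarith
      calc _ ≤ (4 * (n : ℝ) ^ (1 / 4 : ℝ)) * (4 * (n : ℝ) ^ (1 / 4 : ℝ)) :=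
            mul_le_mul h4 h4 h2 (by positivity)
        _ = _ := by ring
    have h5 : (n : ℝ) ^ (1 / 4 : ℝ) * (n : ℝ) ^ (1 / 4 : ℝ) = (n : ℝ) ^ (1 / 2 : ℝ) := by
      rw [← Real.rpow_add hn0]
      norm_num
    have h6 : (n : ℝ) ^ (1 / 2 : ℝ) * (n : ℝ) ^ (3 / 2 : ℝ) = n * n := by
      rw [← Real.rpow_add hn0, show (1 / 2 + 3 / 2 : ℝ) = ((2 : ℕ) : ℝ) by norm_num,
        Real.rpow_natCast, pow_two]
    unfold wt
    rw [div_mul_div_comm, mul_one_div, div_le_div_iff₀ (by positivity) (by positivity)]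
    rw [h5] at h3
    calc Real.log n * Real.log n * (n : ℝ) ^ (3 / 2 : ℝ)
        ≤ 16 * (n : ℝ) ^ (1 / 2 : ℝ) * (n : ℝ) ^ (3 / 2 : ℝ) := by gcongr
      _ = 16 * (n * n) := by rw [mul_assoc, h6]

/-- the affine pairs -/
def affSet (a b : ℕ) : Set (ℕ × ℕ) := {r | 3 ≤ r.1 ∧ r.2 = a * r.1 + b}

lemma aff_summable {a : ℕ} (ha : 1 ≤ a) (b : ℕ) :
    Summable ((affSet a b).indicator fun r => wt r.1 * wt r.2) := by
  classical
  set f : ℕ × ℕ → ℝ := (affSet a b).indicator fun r => wt r.1 * wt r.2 with hf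
  have hf0 : 0 ≤ f := fun r => Set.indicator_nonneg
    (fun r _ => mul_nonneg (wt_nonneg _) (wt_nonneg _)) r
  have hout : ∀ p q : ℕ, q ∉ ({a * p + b} : Finset ℕ) → f (p, q) = 0 := by
    intro p q hq
    rw [hf, Set.indicator_of_notMem]
    rintro ⟨h1, h2⟩
    exact hq (Finset.mem_singleton.2 h2)
  rw [summable_prod_of_nonneg hf0]
  refine ⟨fun p => summable_of_ne_finset_zero fun q hq => hout p q hq, ?_⟩
  refine Summable.of_nonneg_of_le (fun p => tsum_nonneg fun q => hf0 _) (fun p => ?_)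
    wt_sq_summable
  rw [tsum_eq_sum fun q hq => hout p q hq, Finset.sum_singleton, hf]
  by_cases h : 3 ≤ p
  · refine ind_le (fun _ => ?_) (mul_nonneg (wt_nonneg _) (wt_nonneg _))
    refine mul_le_mul_of_nonneg_left (wt_anti h ?_) (wt_nonneg _)
    simp only
    nlinarith
  · rw [Set.indicator_of_notMem (fun h1 => h h1.1)]
    exact mul_nonneg (wt_nonneg _) (wt_nonneg _)

end Pool.Agent.V11287.MS
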