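import Pool.Agent.V11287.MS.Glob
import Pool.Agent.V11287.MS.Fin

set_option autoImplicit false

/-!
Common exponents of two curves; passage to open sets.
-/

namespace Pool.Agent.V11287.MS

open Finset Filter Topology MeasureTheory
open Pool.Agent.TH888.C (ae_win)
open Pool.Agent.W66C (Cur near_c ne_nat_ae)
open Pool.Agent.W66X (ae_of_exp')
open Pool.Agent.H447R2.ML (ff_eq_floor)
open Pool.Agent.H305R2 (roughPart ff measurable_ff ff_nonneg ff_le_one)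
open Pool.Agent.Y719.Mer (z1 z2 small_pert cur_of_small contdiff_der')

lemma Cur_mono {a0 a1 D D' : ℝ} {h1 : ℝ → ℝ} {p : ℕ} {y y' y'' : ℝ → ℝ}
    (h : Cur a0 a1 D h1 p y y' y'') (hD : D ≤ D') : Cur a0 a1 D' h1 p y y' y'' :=
  ⟨⟨fun t ht => (h.loc.near t ht).trans hD, h.loc.der, fun t ht => (h.loc.slope t ht).trans hD⟩,
    h.der2, h.cont2, h.slope, fun t ht => (h.curv t ht).trans hD⟩

variable {A₁ B₁ c₁ A₂ B₂ c₂ : ℝ → ℝ}

/-- both levels are exponents -/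
def bothAt (A₁ B₁ c₁ A₂ B₂ c₂ : ℝ → ℝ) (t : ℝ) : Set ℕ :=
  {p | ff p (ph A₁ B₁ c₁ p t) = 1 ∧ ff p (ph A₂ B₂ c₂ p t) = 1}

lemma bothAt_comm (t : ℝ) : bothAt A₁ B₁ c₁ A₂ B₂ c₂ t = bothAt A₂ B₂ c₂ A₁ B₁ c₁ t := by
  ext p
  exact and_comm

lemma common_win (g1 : GD A₁ B₁ c₁) (g2 : GD A₂ B₂ c₂) {a0 b0 b1 a1 δ : ℝ} (ha0 : 0 < a0)
    (h0 : a0 < b0) (h01 : b0 < b1) (h1 : b1 < a1) (hδ : 0 < δ) (hδ1 : δ ≤ 1)
    (hθ : ∀ t ∈ Set.Icc a0 a1, 2 * δ ≤ deriv (fH A₂) t - deriv (fH A₁) t) :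
    ∀ᵐ t ∂(volume.restrict (Set.Ioc b0 b1)), (bothAt A₁ B₁ c₁ A₂ B₂ c₂ t).Finite := by
  classical
  have hfin : IsFiniteMeasure (volume.restrict (Set.Ioc b0 b1)) := ⟨by simp⟩
  obtain ⟨D1, hD1, e1⟩ := g1.fam a0 a1 ha0 (by linarith)
  obtain ⟨D2, hD2, e2⟩ := g2.fam a0 a1 ha0 (by linarith)
  obtain ⟨K, hK, P, hP⟩ := near_c (h1 := deriv (fH A₁)) (h2 := deriv (fH A₂)) ha0
    (by linarith : 0 ≤ D1 + D2) h0 h01 h1 hδ hδ1
  obtain ⟨Q, hQ⟩ := eventually_atTop.1 (e1.and (e2.and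
    ((small_pert g1.R g1.ρ g1.ρ1 ha0 (by linarith : a0 ≤ a1)).and
    ((small_pert g2.R g2.ρ g2.ρ1 ha0 (by linarith : a0 ≤ a1)).and
    ((g1.z1_small ha0 (by linarith : a0 ≤ a1) (show 0 < δ / 4 by linarith)).and
    (g2.z1_small ha0 (by linarith : a0 ≤ a1) (show 0 < δ / 4 by linarith)))))))
  have hbound : ∀ p, P + Q ≤ p → ∫ t in Set.Ioc b0 b1,
      ff p (ph A₁ B₁ c₁ p t) * ff p (ph A₂ B₂ c₂ p t) ≤ K * (wt p * wt p) := by
    intro p hp
    obtain ⟨f1, f2, f3, f4, f5, f6⟩ := hQ p (by omega)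
    have := hP p (by omega) p le_rfl (by omega) _ _ _ _ _ _ (Cur_mono f1 (by linarith))
      (Cur_mono f2 (by linarith)) (fun t ht => by
        have k1 := abs_le.1 (f3.2.2.2.1 t ht)
        have k2 := abs_le.1 (f4.2.2.2.1 t ht)
        have q1 : |z1 (fR A₁ B₁) (fρ c₁) p t / (1 + fR A₁ B₁ t * fρ c₁ t ^ p)| ≤ δ / 2 := by
          rw [abs_div, div_le_iff₀ (abs_pos.2 (by linarith)), abs_of_pos (by linarith :
            0 < 1 + fR A₁ B₁ t * fρ c₁ t ^ p)]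
          have := f5 t ht
          nlinarith
        have q2 : |z1 (fR A₂ B₂) (fρ c₂) p t / (1 + fR A₂ B₂ t * fρ c₂ t ^ p)| ≤ δ / 2 := by
          rw [abs_div, div_le_iff₀ (abs_pos.2 (by linarith)), abs_of_pos (by linarith :
            0 < 1 + fR A₂ B₂ t * fρ c₂ t ^ p)]
          have := f6 t ht
          nlinarith
        have q3 := abs_le.1 q1
        have q4 := abs_le.1 q2
        have q5 := hθ t ht
        unfold ph'
        linarith)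
    have e : (Real.log p / p) ^ 2 = wt p * wt p := by unfold wt; ring
    rw [e] at this
    exact this
  set V : ℝ := (volume.restrict (Set.Ioc b0 b1)).real Set.univ with hV
  have hV0 : 0 ≤ V := measureReal_nonneg
  have hff : ∀ p t, 0 ≤ ff p (ph A₁ B₁ c₁ p t) * ff p (ph A₂ B₂ c₂ p t) ∧
      ff p (ph A₁ B₁ c₁ p t) * ff p (ph A₂ B₂ c₂ p t) ≤ 1 := fun p t =>
    ⟨mul_nonneg (ff_nonneg _ _) (ff_nonneg _ _),
      mul_le_one₀ (ff_le_one _ _) (ff_nonneg _ _) (ff_le_one _ _)⟩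
  have hms : ∀ p, Measurable fun t => ff p (ph A₁ B₁ c₁ p t) * ff p (ph A₂ B₂ c₂ p t) := fun p =>
    ((measurable_ff p).comp (g1.meas p)).mul ((measurable_ff p).comp (g2.meas p))
  have key := bc (μ := volume.restrict (Set.Ioc b0 b1)) (ι := ℕ)
    (g := fun p t => ff p (ph A₁ B₁ c₁ p t) * ff p (ph A₂ B₂ c₂ p t)) hms
    (fun p t => (hff p t).1) (fun p t => (hff p t).2)
    (b := fun p => K * (wt p * wt p) + if p < P + Q then V else 0)
    ((wt_sq_summable.mul_left K).add (summable_of_ne_finset_zero (s := Finset.range (P + Q))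
      fun q hq => by rw [Finset.mem_range] at hq; rw [if_neg hq]))
    (fun p => by
      have hw := mul_nonneg (wt_nonneg p) (wt_nonneg p)
      have hKw : 0 ≤ K * (wt p * wt p) := by positivity
      by_cases hp : p < P + Q
      · rw [if_pos hp]
        have h3 := integral_mono (μ := volume.restrict (Set.Ioc b0 b1))
          (integrable_of01 (hms p) (fun t => (hff p t).1) (fun t => (hff p t).2))
          (integrable_const (1 : ℝ)) (fun t => (hff p t).2)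
        rw [integral_const, smul_eq_mul, mul_one] at h3
        linarith
      · rw [if_neg hp, add_zero]
        exact hbound p (by omega))
  filter_upwards [key] with t ht
  refine ht.subset fun p hp => ?_
  show ff p (ph A₁ B₁ c₁ p t) * ff p (ph A₂ B₂ c₂ p t) = 1
  rw [hp.1, hp.2, one_mul]

lemma common_loc (g1 : GD A₁ B₁ c₁) (g2 : GD A₂ B₂ c₂) {t0 : ℝ} (ht0 : 0 < t0)
    (hlt : deriv (fH A₁) t0 < deriv (fH A₂) t0) : ∃ ε : ℝ, 0 < ε ∧
    ∀ᵐ t : ℝ, t ∈ Set.Ioc (t0 - ε) (t0 + ε) → (bothAt A₁ B₁ c₁ A₂ B₂ c₂ t).Finite := by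
  obtain ⟨-, r2, -⟩ := contdiff_der' g1.H
  obtain ⟨-, s2, -⟩ := contdiff_der' g2.H
  have hc : Continuous fun t => deriv (fH A₂) t - deriv (fH A₁) t :=
    (continuous_iff_continuousAt.2 fun t => (s2 t).continuousAt).sub
      (continuous_iff_continuousAt.2 fun t => (r2 t).continuousAt)
  set v := deriv (fH A₂) t0 - deriv (fH A₁) t0 with hv
  have hv0 : 0 < v := by linarith
  have hev : ∀ᶠ t in 𝓝 t0, v / 2 < deriv (fH A₂) t - deriv (fH A₁) t :=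
    (hc.tendsto t0).eventually_const_lt (by linarith)
  obtain ⟨r, hr, hball⟩ := Metric.eventually_nhds_iff.1 hev
  set ε := min (r / 4) (t0 / 4) with hε
  have hε0 : 0 < ε := lt_min (by linarith) (by linarith)
  have hε1 : ε ≤ r / 4 := min_le_left _ _
  have hε2 : ε ≤ t0 / 4 := min_le_right _ _
  refine ⟨ε, hε0, ?_⟩
  have hδ1 : min 1 (v / 4) ≤ 1 := min_le_left _ _
  have hδ2 : min 1 (v / 4) ≤ v / 4 := min_le_right _ _
  exact (ae_restrict_iff' measurableSet_Ioc).1 (common_win g1 g2 (a0 := t0 - 2 * ε)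
    (a1 := t0 + 2 * ε) (δ := min 1 (v / 4)) (by linarith) (by linarith) (by linarith)
    (by linarith) (lt_min one_pos (by linarith)) hδ1 fun t ht => by
      have h3 : dist t t0 < r := by
        rw [Real.dist_eq, abs_lt]
        constructor <;> linarith [ht.1, ht.2]
      have := hball h3
      linarith)

theorem common_t (g1 : GD A₁ B₁ c₁) (g2 : GD A₂ B₂ c₂) : ∀ᵐ t : ℝ, 0 < t →
    deriv (fH A₁) t ≠ deriv (fH A₂) t → (bothAt A₁ B₁ c₁ A₂ B₂ c₂ t).Finite := by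
  rw [ae_iff]
  refine measure_null_of_locally_null _ fun t0 ht0 => ?_
  simp only [Set.mem_setOf_eq, Classical.not_imp] at ht0
  obtain ⟨h0, hne, -⟩ := ht0
  obtain ⟨ε, hε, hae⟩ : ∃ ε : ℝ, 0 < ε ∧ ∀ᵐ t : ℝ, t ∈ Set.Ioc (t0 - ε) (t0 + ε) →
      (bothAt A₁ B₁ c₁ A₂ B₂ c₂ t).Finite := by
    rcases lt_or_gt_of_ne hne with hlt | hlt
    · exact common_loc g1 g2 h0 hlt
    · obtain ⟨ε, hε, h⟩ := common_loc g2 g1 h0 hlt
      refine ⟨ε, hε, ?_⟩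
      filter_upwards [h] with t ht h1
      rw [bothAt_comm]
      exact ht h1
  refine ⟨_, inter_mem self_mem_nhdsWithin (mem_nhdsWithin_of_mem_nhds
    (Ioc_mem_nhds (show t0 - ε < t0 by linarith) (show t0 < t0 + ε by linarith))), ?_⟩
  rw [ae_iff] at hae
  refine measure_mono_null ?_ hae
  rintro t ⟨ht1, ht2⟩
  simp only [Set.mem_setOf_eq, Classical.not_imp] at ht1 ⊢
  exact ⟨ht2, ht1.2.2⟩

/-- the exponents of the integer parts of the values -/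
lemma ex_ph (g1 : GD A₁ B₁ c₁) : ∀ᵐ t : ℝ, 0 < t → ∃ P : ℕ, ∀ p ≥ P,
    p ∈ Ex (fun p => ⌊A₁ (Real.exp t) * (Real.exp t) ^ p - B₁ (Real.exp t) * c₁ (Real.exp t) ^ p⌋₊) →
      ff p (ph A₁ B₁ c₁ p t) = 1 := by
  filter_upwards [ne_nat_ae (c0 := 0) (fun a0 a1 ha0 ha => g1.fam a0 a1 ha0 ha)] with t h3 htc
  obtain ⟨P1, hP1⟩ := h3 htc
  obtain ⟨P2, hP2⟩ := eventually_atTop.1 (g1.val t htc)
  refine ⟨P1 + P2, fun p hpP hp => ?_⟩
  obtain ⟨h4, h5⟩ := hP2 p (by omega) hp.1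
  rw [← h5, ff_eq_floor h4 fun m hm => hP1 p (by omega) m ?_]
  · exact if_pos hp.2
  · rw [← h5, Real.exp_log h4]
    exact hm

lemma deriv_fH (g1 : GD A₁ B₁ c₁) (t : ℝ) :
    deriv (fH A₁) t = deriv A₁ (Real.exp t) * Real.exp t / A₁ (Real.exp t) := by
  have h1 : HasDerivAt A₁ (deriv A₁ (Real.exp t)) (Real.exp t) :=
    ((g1.hA.differentiable (by norm_num)) _).hasDerivAt
  exact ((h1.comp t (Real.hasDerivAt_exp t)).log (g1.pos _).ne').deriv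

theorem common_glob (g1 : GD A₁ B₁ c₁) (g2 : GD A₂ B₂ c₂) : ∀ᵐ x : ℝ, 1 < x →
    deriv A₁ x * A₂ x ≠ A₁ x * deriv A₂ x →
    (Ex (fun p => ⌊A₁ x * x ^ p - B₁ x * c₁ x ^ p⌋₊) ∩
      Ex (fun p => ⌊A₂ x * x ^ p - B₂ x * c₂ x ^ p⌋₊)).Finite := by
  have hfin := ae_of_exp' (P := fun x : ℝ => 1 < x →
    deriv A₁ x * A₂ x ≠ A₁ x * deriv A₂ x →
    (Ex (fun p => ⌊A₁ x * x ^ p - B₁ x * c₁ x ^ p⌋₊) ∩
      Ex (fun p => ⌊A₂ x * x ^ p - B₂ x * c₂ x ^ p⌋₊)).Finite) (by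
    filter_upwards [common_t g1 g2, ex_ph g1, ex_ph g2] with t h1 h2 h3 hx hne
    have ht : 0 < t := Real.one_lt_exp_iff.1 hx
    obtain ⟨P1, hP1⟩ := h2 ht
    obtain ⟨P2, hP2⟩ := h3 ht
    have h4 := h1 ht (by
      rw [deriv_fH g1, deriv_fH g2]
      intro h
      apply hne
      have q1 := g1.pos (Real.exp t)
      have q2 := g2.pos (Real.exp t)
      have q3 := Real.exp_pos t
      rw [div_eq_div_iff q1.ne' q2.ne'] at h
      have h5 : (deriv A₁ (Real.exp t) * A₂ (Real.exp t)) * Real.exp t =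
          (A₁ (Real.exp t) * deriv A₂ (Real.exp t)) * Real.exp t := by linarith
      exact mul_right_cancel₀ q3.ne' h5)
    refine (h4.union (Set.finite_lt_nat (P1 + P2))).subset ?_
    rintro p ⟨hp1, hp2⟩
    by_cases hp : P1 + P2 ≤ p
    · exact Or.inl ⟨hP1 p (by omega) hp1, hP2 p (by omega) hp2⟩
    · exact Or.inr (by simpa using hp))
  filter_upwards [hfin] with x hx h1
  exact hx (by linarith) h1

section cutoff

variable {U : Set ℝ} {x0 : ℝ}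

/-- the function cut off near `x0` -/
lemma cut (hU : IsOpen U) (hx0 : x0 ∈ U) : ∃ (χ : ℝ → ℝ) (ε : ℝ), 0 < ε ∧ ContDiff ℝ 2 χ ∧
    (∀ x, 0 ≤ χ x ∧ χ x ≤ 1) ∧ (∀ x, x ∉ U → χ x = 0) ∧ (∀ x ∈ Metric.ball x0 ε, χ x = 1) ∧
    (∀ f : ℝ → ℝ, ContDiffOn ℝ 2 f U → ContDiff ℝ 2 (fun x => χ x * f x)) := by
  obtain ⟨ε, hε, hball⟩ := Metric.isOpen_iff.1 hU x0 hx0
  let χ : ContDiffBump x0 := ⟨ε / 4, ε / 2, by positivity, by linarith⟩
  have hts : tsupport χ ⊆ U := by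
    rw [χ.tsupport_eq]
    exact (Metric.closedBall_subset_ball (show ε / 2 < ε by linarith)).trans hball
  refine ⟨χ, ε / 4, by positivity, χ.contDiff, fun x => ⟨χ.nonneg, χ.le_one⟩, fun x hx => ?_,
    fun x hx => χ.one_of_mem_closedBall (Metric.ball_subset_closedBall hx), fun f hf => ?_⟩
  · by_contra hne
    exact hx (hts (subset_tsupport _ hne))
  · refine contDiff_iff_contDiffAt.2 fun x => ?_
    by_cases h1 : x ∈ tsupport χ
    · exact (χ.contDiff.contDiffAt).mul (hf.contDiffAt (hU.mem_nhds (hts h1)))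
    · have h2 : (fun x => χ x * f x) =ᶠ[𝓝 x] fun _ => (0 : ℝ) := by
        filter_upwards [(isClosed_tsupport χ).isOpen_compl.mem_nhds h1] with y hy
        rw [image_eq_zero_of_notMem_tsupport hy, zero_mul]
      exact contDiffAt_const.congr_of_eventuallyEq h2

lemma gd_cut {χ : ℝ → ℝ} (hχ : ContDiff ℝ 2 χ) (h01 : ∀ x, 0 ≤ χ x ∧ χ x ≤ 1)
    (hχ0 : ∀ x, x ∉ U → χ x = 0)
    (hmul : ∀ f : ℝ → ℝ, ContDiffOn ℝ 2 f U → ContDiff ℝ 2 (fun x => χ x * f x))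
    {A B c : ℝ → ℝ} (hA : ContDiffOn ℝ 2 A U) (hB : ContDiffOn ℝ 2 B U)
    (hc : ContDiffOn ℝ 2 c U) (hpos : ∀ x ∈ U, 0 < A x) (hcx : ∀ x ∈ U, |c x| < x) :
    GD (fun x => χ x * A x + (1 - χ x)) (fun x => χ x * B x) (fun x => χ x * c x) where
  hA := (hmul A hA).add (contDiff_const.sub hχ)
  hB := hmul B hB
  hc := hmul c hc
  pos := by
    intro x
    by_cases hx : x ∈ U
    · have h1 := hpos x hx
      obtain ⟨h2, h3⟩ := h01 x
      rcases h2.eq_or_lt with h | h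
      · rw [← h]; norm_num
      · have := mul_pos h h1
        linarith
    · rw [hχ0 x hx]; norm_num
  lt := by
    intro x hx1
    by_cases hx : x ∈ U
    · have h1 := hcx x hx
      obtain ⟨h2, h3⟩ := h01 x
      rw [abs_mul, abs_of_nonneg h2]
      exact (mul_le_of_le_one_left (abs_nonneg _) h3).trans_lt h1
    · rw [hχ0 x hx, zero_mul, abs_zero]; linarith

end cutoff

/-- **Sparse sets of pairs along a `C ^ 2` curve over an open set of bases.** -/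
theorem pairs_open {U : Set ℝ} (hU : IsOpen U) (hU1 : ∀ x ∈ U, 1 < x) {A B c : ℝ → ℝ}
    (hA : ContDiffOn ℝ 2 A U) (hB : ContDiffOn ℝ 2 B U) (hc : ContDiffOn ℝ 2 c U)
    (hpos : ∀ x ∈ U, 0 < A x) (hcx : ∀ x ∈ U, |c x| < x)
    {R : Set (ℕ × ℕ)} (hR : ∀ r ∈ R, r.1 < r.2)
    (hs : Summable (R.indicator fun r => wt r.1 * wt r.2)) :
    ∀ᵐ x : ℝ, x ∈ U → PF (fun p => ⌊A x * x ^ p - B x * c x ^ p⌋₊) R := by
  rw [ae_iff]
  refine measure_null_of_locally_null _ fun x0 hx0 => ?_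
  simp only [Set.mem_setOf_eq, Classical.not_imp] at hx0
  obtain ⟨χ, ε, hε, hχ, h01, hχ0, hχ1, hmul⟩ := cut hU hx0.1
  have hg := (gd_cut hχ h01 hχ0 hmul hA hB hc hpos hcx).pairs hR hs
  rw [ae_iff] at hg
  refine ⟨_, inter_mem self_mem_nhdsWithin (mem_nhdsWithin_of_mem_nhds
    (Metric.ball_mem_nhds x0 hε)), ?_⟩
  refine measure_mono_null ?_ hg
  rintro x ⟨hx, hxb⟩
  simp only [Set.mem_setOf_eq, Classical.not_imp] at hx ⊢
  refine ⟨hU1 x hx.1, fun h => hx.2 ?_⟩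
  rw [hχ1 x hxb] at h
  simp only [one_mul, sub_self, add_zero] at h
  exact h

/-- **Common exponents of two curves over an open set of bases.** -/
theorem common_open {U : Set ℝ} (hU : IsOpen U) (hU1 : ∀ x ∈ U, 1 < x)
    (hA₁ : ContDiffOn ℝ 2 A₁ U) (hB₁ : ContDiffOn ℝ 2 B₁ U) (hc₁ : ContDiffOn ℝ 2 c₁ U)
    (hpos₁ : ∀ x ∈ U, 0 < A₁ x) (hcx₁ : ∀ x ∈ U, |c₁ x| < x)
    (hA₂ : ContDiffOn ℝ 2 A₂ U) (hB₂ : ContDiffOn ℝ 2 B₂ U) (hc₂ : ContDiffOn ℝ 2 c₂ U)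
    (hpos₂ : ∀ x ∈ U, 0 < A₂ x) (hcx₂ : ∀ x ∈ U, |c₂ x| < x) :
    ∀ᵐ x : ℝ, x ∈ U → deriv A₁ x * A₂ x ≠ A₁ x * deriv A₂ x →
      (Ex (fun p => ⌊A₁ x * x ^ p - B₁ x * c₁ x ^ p⌋₊) ∩
        Ex (fun p => ⌊A₂ x * x ^ p - B₂ x * c₂ x ^ p⌋₊)).Finite := by
  rw [ae_iff]
  refine measure_null_of_locally_null _ fun x0 hx0 => ?_
  simp only [Set.mem_setOf_eq, Classical.not_imp] at hx0
  obtain ⟨χ, ε, hε, hχ, h01, hχ0, hχ1, hmul⟩ := cut hU hx0.1
  have hg := common_glob (gd_cut hχ h01 hχ0 hmul hA₁ hB₁ hc₁ hpos₁ hcx₁)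
    (gd_cut hχ h01 hχ0 hmul hA₂ hB₂ hc₂ hpos₂ hcx₂)
  rw [ae_iff] at hg
  refine ⟨_, inter_mem self_mem_nhdsWithin (mem_nhdsWithin_of_mem_nhds
    (Metric.ball_mem_nhds x0 hε)), ?_⟩
  refine measure_mono_null ?_ hg
  rintro x ⟨hx, hxb⟩
  simp only [Set.mem_setOf_eq, Classical.not_imp] at hx ⊢
  have hd : ∀ f : ℝ → ℝ, deriv (fun x => χ x * f x + (1 - χ x)) x = deriv f x := by
    intro f
    refine Filter.EventuallyEq.deriv_eq ?_
    filter_upwards [Metric.isOpen_ball.mem_nhds hxb] with y hy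
    rw [hχ1 y hy]
    ring
  refine ⟨hU1 x hx.1, ?_, fun h => hx.2.2 ?_⟩
  · rw [hd, hd, hχ1 x hxb]
    simp only [one_mul, sub_self, add_zero]
    exact hx.2.1
  · rw [hχ1 x hxb] at h
    simp only [one_mul, sub_self, add_zero] at h
    exact h

end Pool.Agent.V11287.MS
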