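import Mathlib
import Pool.Agent.H447R2.ML.Quot
import Pool.Agent.H305R2.Rough

set_option autoImplicit false

/-!
# The rough part of `(a ^ p - b ^ p) / (a - b)` (copied from `H447R2.ML`, lighter imports)
-/

namespace Pool.Agent.V11287.MS

open Pool.Agent.H305R2 (roughPart)
open Pool.Agent.H447R2.ML (lt_of_dvd_quot)

lemma roughPart_eq_self {p m : ℕ} (hm : m ≠ 0) (h : ∀ q : ℕ, q.Prime → q ∣ m → p < q) :
    roughPart p m = m := by
  unfold roughPart
  have h2 : m.primeFactorsList.filter (fun r => p < r) = m.primeFactorsList := by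
    rw [List.filter_eq_self]
    intro r hr
    exact decide_eq_true (h r (Nat.prime_of_mem_primeFactorsList hr)
      (Nat.dvd_of_mem_primeFactorsList hr))
  rw [h2]
  exact Nat.prod_primeFactorsList hm

lemma geom_pos {a b : ℤ} (h1 : -a < b) (h2 : b < a) {p : ℕ} (hp : p ≠ 0) :
    0 < ∑ i ∈ Finset.range p, a ^ i * b ^ (p - 1 - i) := by
  have hgeom : (∑ i ∈ Finset.range p, a ^ i * b ^ (p - 1 - i)) * (a - b) = a ^ p - b ^ p :=
    (Commute.all a b).geom_sum₂_mul p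
  have h3 : b ^ p < a ^ p := by
    calc b ^ p ≤ |b| ^ p := by
          rw [← abs_pow]; exact le_abs_self _
      _ < a ^ p := pow_lt_pow_left₀ (abs_lt.2 ⟨h1, h2⟩) (abs_nonneg _) hp
  have h4 : 0 < a - b := by linarith
  by_contra h5
  push Not at h5
  have := mul_nonpos_of_nonpos_of_nonneg h5 h4.le
  linarith

lemma quot_real {a b : ℤ} (h2 : b < a) (p : ℕ) :
    ((∑ i ∈ Finset.range p, a ^ i * b ^ (p - 1 - i) : ℤ) : ℝ) =
      1 / ((a : ℝ) - b) * (a : ℝ) ^ p - (b : ℝ) ^ p / ((a : ℝ) - b) := by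
  have hgeom : (∑ i ∈ Finset.range p, a ^ i * b ^ (p - 1 - i)) * (a - b) = a ^ p - b ^ p :=
    (Commute.all a b).geom_sum₂_mul p
  have h3 : ((∑ i ∈ Finset.range p, a ^ i * b ^ (p - 1 - i) : ℤ) : ℝ) * ((a : ℝ) - b) =
      (a : ℝ) ^ p - (b : ℝ) ^ p := by
    exact_mod_cast hgeom
  have h4 : (a : ℝ) - b ≠ 0 := by
    have : (b : ℝ) < a := by exact_mod_cast h2
    linarith
  field_simp
  exact h3

/-- the special point of the family of `(a ^ p - b ^ p) / (a - b)` -/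
theorem rough_quot {a b : ℤ} (hab : IsCoprime a b) (h1 : -a < b) (h2 : b < a) {p : ℕ}
    (hp : p.Prime) (hpd : ¬ (p : ℤ) ∣ a - b) {x : ℝ}
    (hx : x = 1 / ((a : ℝ) - b) * (a : ℝ) ^ p - (b : ℝ) ^ p / ((a : ℝ) - b)) :
    ((roughPart p ⌊x⌋₊ : ℕ) : ℤ) = ∑ i ∈ Finset.range p, a ^ i * b ^ (p - 1 - i) := by
  have hpos := geom_pos h1 h2 hp.ne_zero
  obtain ⟨N, hN⟩ := Int.eq_ofNat_of_zero_le hpos.le
  rw [← quot_real h2, hN] at hx
  have hfl : ⌊x⌋₊ = N := by
    rw [hx]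
    simp
  rw [hfl, hN]
  rw [roughPart_eq_self]
  · intro h0
    rw [hN, h0] at hpos
    simp at hpos
  · intro q hq hqN
    refine lt_of_dvd_quot hab hp hpd hq ?_
    rw [hN]
    exact_mod_cast hqN

end Pool.Agent.V11287.MS
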