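import Mathlib

set_option autoImplicit false

/-!
Finiteness of the pairs of events in a sparse set of pairs, for families of events with a pair
bound.
-/

namespace Pool.Agent.V11287.MS

open Finset Filter Topology MeasureTheory

/-- the weight of a level -/
noncomputable def wt (p : ℕ) : ℝ := Real.log p / p

lemma wt_nonneg (p : ℕ) : 0 ≤ wt p := div_nonneg (Real.log_natCast_nonneg p) (Nat.cast_nonneg p)

lemma wt_lower {p N : ℕ} (hp : 2 ≤ p) (hN : p ≤ N) : Real.log 2 / N ≤ wt p := by
  have hp2 : (2 : ℝ) ≤ p := by exact_mod_cast hp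
  have hpN : (p : ℝ) ≤ N := by exact_mod_cast hN
  unfold wt
  have h1 : Real.log 2 ≤ Real.log p := Real.log_le_log (by norm_num) hp2
  have h2 : 0 < Real.log 2 := Real.log_pos (by norm_num)
  exact div_le_div₀ (by linarith) h1 (by linarith) hpN

lemma wt_pos {p : ℕ} (hp : 2 ≤ p) : 0 < wt p := by
  have hp2 : (2 : ℝ) ≤ p := by exact_mod_cast hp
  exact div_pos (Real.log_pos (by linarith)) (by linarith)

lemma wt_anti {p q : ℕ} (hp : 3 ≤ p) (hpq : p ≤ q) : wt q ≤ wt p := by
  have h3 : (3 : ℝ) ≤ p := by exact_mod_cast hp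
  have he : Real.exp 1 ≤ 3 := by
    have := Real.exp_one_lt_d9
    linarith
  have hpq' : (p : ℝ) ≤ q := by exact_mod_cast hpq
  exact Real.log_div_self_antitoneOn (Set.mem_setOf_eq ▸ he.trans h3)
    (Set.mem_setOf_eq ▸ (he.trans h3).trans hpq') hpq'

section

variable {Ω : Type*} [MeasurableSpace Ω] {μ : Measure Ω} [IsFiniteMeasure μ]

lemma integrable_of01 {g : Ω → ℝ} (hm : Measurable g) (h0 : ∀ x, 0 ≤ g x) (h1 : ∀ x, g x ≤ 1) :
    Integrable g μ := by
  refine Integrable.of_bound (C := 1) hm.aestronglyMeasurable (Eventually.of_forall fun x => ?_)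
  rw [Real.norm_of_nonneg (h0 x)]
  exact h1 x

/-- the lemma of Borel and Cantelli for functions with values in `[0, 1]` -/
lemma bc {ι : Type*} [Countable ι] {g : ι → Ω → ℝ} (hm : ∀ i, Measurable (g i))
    (h0 : ∀ i x, 0 ≤ g i x) (h1 : ∀ i x, g i x ≤ 1) {b : ι → ℝ} (hb : Summable b)
    (hint : ∀ i, ∫ x, g i x ∂μ ≤ b i) : ∀ᵐ x ∂μ, {i | g i x = 1}.Finite := by
  have hle : ∀ i, μ {x | g i x = 1} ≤ ENNReal.ofReal (b i) := by
    intro i
    refine le_trans ?_ (ENNReal.ofReal_le_ofReal (hint i))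
    rw [ofReal_integral_eq_lintegral_ofReal (integrable_of01 (hm i) (h0 i) (h1 i))
      (Eventually.of_forall (h0 i))]
    have h2 := mul_meas_ge_le_lintegral (μ := μ)
      (f := fun x => ENNReal.ofReal (g i x)) (hm i).ennreal_ofReal 1
    rw [one_mul] at h2
    refine le_trans (measure_mono fun z hz => ?_) h2
    have hz' : g i z = 1 := hz
    show 1 ≤ ENNReal.ofReal (g i z)
    rw [hz', ENNReal.ofReal_one]
  have hfin : ∑' i, μ {x | g i x = 1} ≠ ⊤ :=
    ne_top_of_le_ne_top hb.tsum_ofReal_ne_top (ENNReal.tsum_le_tsum hle)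
  exact ae_finite_setOf_mem hfin

/-- **Finiteness of the pairs of events in a sparse set of pairs.** -/
theorem abs_sparse {f : ℕ → Ω → ℝ} (hm : ∀ q, Measurable (f q)) (h0 : ∀ q x, 0 ≤ f q x)
    (h1 : ∀ q x, f q x ≤ 1) {φ : ℕ × ℕ → ℝ} (hφ : ∀ r, wt r.1 * wt r.2 ≤ φ r)
    {K : ℝ} (hK : 0 ≤ K) {P : ℕ} (hone : ∀ q ≥ P, ∫ x, f q x ∂μ ≤ K * wt q)
    (htwo : ∀ p ≥ P, ∀ q, p < q → ∫ x, f p x * f q x ∂μ ≤ K * φ (p, q))
    {R : Set (ℕ × ℕ)} (hR : ∀ r ∈ R, r.1 < r.2) (hs : Summable (R.indicator φ)) :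
    ∀ᵐ x ∂μ, {r | r ∈ R ∧ 2 ≤ r.1 ∧ f r.1 x = 1 ∧ f r.2 x = 1}.Finite ∧
      ∀ p, {q | 2 ≤ p ∧ (p, q) ∈ R ∧ f q x = 1}.Finite := by
  classical
  have hφ0 : ∀ r, 0 ≤ φ r := fun r => (mul_nonneg (wt_nonneg _) (wt_nonneg _)).trans (hφ r)
  set V : ℝ := μ.real Set.univ with hV
  have hV0 : 0 ≤ V := measureReal_nonneg
  set N : ℕ := P + 2 with hN
  have hl2 : 0 < Real.log 2 := Real.log_pos (by norm_num)
  have hN0 : (0 : ℝ) < N := by rw [hN]; push_cast; positivity
  set c : ℝ := Real.log 2 / N with hc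
  have hc0 : 0 < c := by positivity
  have hff : ∀ p q x, 0 ≤ f p x * f q x ∧ f p x * f q x ≤ f q x ∧ f p x * f q x ≤ 1 := by
    intro p q x
    have e1 := h0 p x; have e2 := h0 q x; have e3 := h1 p x; have e4 := h1 q x
    exact ⟨mul_nonneg e1 e2, mul_le_of_le_one_left e2 e3, mul_le_one₀ e3 e2 e4⟩
  have hI1 : ∀ p q, ∫ x, f p x * f q x ∂μ ≤ ∫ x, f q x ∂μ := fun p q =>
    integral_mono (integrable_of01 ((hm p).mul (hm q)) (fun x => (hff p q x).1)
      fun x => (hff p q x).2.2) (integrable_of01 (hm q) (h0 q) (h1 q)) fun x => (hff p q x).2.1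
  have hI2 : ∀ q, ∫ x, f q x ∂μ ≤ V := by
    intro q
    have := integral_mono (μ := μ) (integrable_of01 (hm q) (h0 q) (h1 q))
      (integrable_const (1 : ℝ)) (fun x => h1 q x)
    simpa [hV, Measure.real] using this
  have hbd : ∀ r : ℕ × ℕ, 2 ≤ r.1 → r.1 < r.2 →
      ∫ x, f r.1 x * f r.2 x ∂μ ≤ (K + K / c + V / c ^ 2) * φ r := by
    rintro ⟨p, q⟩ hp hpq
    simp only at hp hpq
    have hw := hφ (p, q)
    simp only at hw
    have hwn := mul_nonneg (wt_nonneg p) (wt_nonneg q)
    have hf0 := hφ0 (p, q)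
    have a1 : 0 ≤ K * φ (p, q) := mul_nonneg hK hf0
    have a2 : 0 ≤ K / c * φ (p, q) := mul_nonneg (by positivity) hf0
    have a3 : 0 ≤ V / c ^ 2 * φ (p, q) := mul_nonneg (by positivity) hf0
    rw [add_mul, add_mul]
    rcases le_or_gt P p with hPp | hPp
    · have := htwo p hPp q hpq
      simp only
      linarith
    · have hwp : c ≤ wt p := wt_lower hp (by omega)
      rcases le_or_gt P q with hPq | hPq
      · have e1 := (hI1 p q).trans (hone q hPq)
        have e2 : 1 ≤ wt p / c := (one_le_div hc0).2 hwp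
        have e3 : K * wt q ≤ K / c * φ (p, q) := by
          calc K * wt q = K * (1 * wt q) := by ring
            _ ≤ K * (wt p / c * wt q) := by
                gcongr
                exact wt_nonneg q
            _ = K / c * (wt p * wt q) := by ring
            _ ≤ _ := by gcongr
        simp only
        linarith
      · have hwq : c ≤ wt q := wt_lower (by omega) (by omega)
        have e1 := (hI1 p q).trans (hI2 q)
        have e2 : c ^ 2 ≤ wt p * wt q := by
          rw [pow_two]
          exact mul_le_mul hwp hwq hc0.le (wt_nonneg p)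
        have e3 : V ≤ V / c ^ 2 * φ (p, q) := by
          rw [div_mul_eq_mul_div, le_div_iff₀ (by positivity)]
          exact mul_le_mul_of_nonneg_left (e2.trans hw) hV0
        simp only
        linarith
  -- pairs
  have hA := bc (μ := μ) (ι := ℕ × ℕ)
    (g := fun r x => if r ∈ R ∧ 2 ≤ r.1 then f r.1 x * f r.2 x else 0)
    (fun r => by
      by_cases h : r ∈ R ∧ 2 ≤ r.1
      · simp only [if_pos h]; exact (hm _).mul (hm _)
      · simp only [if_neg h]; exact measurable_const)
    (fun r x => by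
      by_cases h : r ∈ R ∧ 2 ≤ r.1
      · simp only [if_pos h]; exact (hff _ _ x).1
      · simp only [if_neg h]; exact le_rfl)
    (fun r x => by
      by_cases h : r ∈ R ∧ 2 ≤ r.1
      · simp only [if_pos h]; exact (hff _ _ x).2.2
      · simp only [if_neg h]; exact zero_le_one)
    (hs.mul_left (K + K / c + V / c ^ 2))
    (fun r => by
      by_cases h : r ∈ R ∧ 2 ≤ r.1
      · simp only [if_pos h]
        rw [Set.indicator_of_mem h.1]
        exact hbd r h.2 (hR r h.1)
      · simp only [if_neg h, integral_zero]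
        have : 0 ≤ R.indicator φ r := Set.indicator_nonneg (fun r _ => hφ0 r) r
        positivity)
  -- one level fixed
  have hB : ∀ p, ∀ᵐ x ∂μ, {q | 2 ≤ p ∧ (p, q) ∈ R ∧ f q x = 1}.Finite := by
    intro p
    by_cases hp : 2 ≤ p
    · have hwp := wt_pos hp
      have hinj : Function.Injective (fun q : ℕ => (p, q)) := fun a b h => (Prod.mk.inj h).2
      have hs' : Summable (fun q => (K / wt p) * R.indicator φ (p, q)) :=
        (hs.comp_injective hinj).mul_left _
      have h2 : Summable (fun q : ℕ => (K / wt p) * R.indicator φ (p, q) +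
          if q < P then V else 0) := by
        refine hs'.add (summable_of_ne_finset_zero (s := Finset.range P) fun q hq => ?_)
        rw [Finset.mem_range] at hq
        rw [if_neg hq]
      have hC := bc (μ := μ) (ι := ℕ) (g := fun q x => if (p, q) ∈ R then f q x else 0)
        (fun q => by
          by_cases h : (p, q) ∈ R
          · simp only [if_pos h]; exact hm _
          · simp only [if_neg h]; exact measurable_const)
        (fun q x => by
          by_cases h : (p, q) ∈ R
          · simp only [if_pos h]; exact h0 _ _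
          · simp only [if_neg h]; exact le_rfl)
        (fun q x => by
          by_cases h : (p, q) ∈ R
          · simp only [if_pos h]; exact h1 _ _
          · simp only [if_neg h]; exact zero_le_one)
        h2
        (fun q => by
          have hind : 0 ≤ R.indicator φ (p, q) := Set.indicator_nonneg (fun r _ => hφ0 r) _
          have e0 : 0 ≤ (K / wt p) * R.indicator φ (p, q) := by positivity
          by_cases h : (p, q) ∈ R
          · simp only [if_pos h]
            rw [Set.indicator_of_mem h] at e0 ⊢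
            by_cases hq : q < P
            · rw [if_pos hq]
              have := hI2 q
              linarith
            · rw [if_neg hq, add_zero]
              refine (hone q (by omega)).trans ?_
              have e2 := hφ (p, q)
              simp only at e2
              rw [div_mul_eq_mul_div, le_div_iff₀ hwp]
              calc K * wt q * wt p = K * (wt p * wt q) := by ring
                _ ≤ _ := by gcongr
          · simp only [if_neg h, integral_zero]
            have : (0 : ℝ) ≤ if q < P then V else 0 := by split_ifs <;> linarith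
            linarith)
      filter_upwards [hC] with x hx
      refine hx.subset ?_
      rintro q ⟨-, hq1, hq2⟩
      show (if (p, q) ∈ R then f q x else 0) = 1
      rw [if_pos hq1]
      exact hq2
    · refine Eventually.of_forall fun x => ?_
      convert Set.finite_empty
      ext q
      simp only [Set.mem_setOf_eq, Set.mem_empty_iff_false, iff_false]
      exact fun h => hp h.1
  filter_upwards [hA, ae_all_iff.2 hB] with x hx1 hx2
  refine ⟨hx1.subset ?_, hx2⟩
  rintro r ⟨hr1, hr2, hr3, hr4⟩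
  show (if r ∈ R ∧ 2 ≤ r.1 then f r.1 x * f r.2 x else 0) = 1
  rw [if_pos ⟨hr1, hr2⟩, hr3, hr4, one_mul]

end

/-- the deterministic part -/
lemma fin_of {E : Set ℕ} {R : Set (ℕ × ℕ)} {g : ℕ → ℝ} {P : ℕ} (hE : ∀ p ∈ E, 2 ≤ p)
    (hg : ∀ p ∈ E, P ≤ p → g p = 1) (hR : ∀ r ∈ R, r.1 < r.2)
    (hA : {r | r ∈ R ∧ 2 ≤ r.1 ∧ g r.1 = 1 ∧ g r.2 = 1}.Finite)
    (hB : ∀ p, {q | 2 ≤ p ∧ (p, q) ∈ R ∧ g q = 1}.Finite) :
    {r | r ∈ R ∧ r.1 ∈ E ∧ r.2 ∈ E}.Finite := by
  have h1 : (⋃ p ∈ Finset.range P, (fun q : ℕ => (p, q)) ''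
      ({q | q < P} ∪ {q | 2 ≤ p ∧ (p, q) ∈ R ∧ g q = 1})).Finite :=
    Set.Finite.biUnion (Finset.finite_toSet _) fun p _ =>
      ((Set.finite_lt_nat P).union (hB p)).image _
  refine (hA.union h1).subset ?_
  rintro ⟨p, q⟩ ⟨hr, hp, hq⟩
  have hpq := hR _ hr
  simp only at hpq hp hq
  by_cases hP : P ≤ p
  · exact Or.inl ⟨hr, hE p hp, hg p hp hP, hg q hq (by omega)⟩
  · refine Or.inr (Set.mem_biUnion (Finset.mem_coe.2 (Finset.mem_range.2 (by omega : p < P))) ?_)
    refine ⟨q, ?_, rfl⟩
    by_cases hq' : q < P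
    · exact Or.inl hq'
    · exact Or.inr ⟨hE p hp, hr, hg q hq (by omega)⟩

end Pool.Agent.V11287.MS
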