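import Pool.Agent.V11287.MS.Abs
import Pool.Agent.H305R2.Mean

set_option autoImplicit false

/-!
From correlations to pair bounds.
-/

namespace Pool.Agent.V11287.MS

open Finset Filter Topology MeasureTheory
open Pool.Agent.H305R2 (ff gg LL measurable_ff measurable_gg ff_nonneg ff_le_one LL_nonneg
  LL_le_one LL_cont abs_gg_le_one roughPart)

/-- the exponents of a sequence of natural numbers: the primes `p` for which the `p`-rough part of
`s p` is prime -/
def Ex (s : ℕ → ℕ) : Set ℕ := {p | p.Prime ∧ (roughPart p (s p)).Prime}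

/-- only finitely many pairs in `R` consist of two exponents -/
def PF (s : ℕ → ℕ) (R : Set (ℕ × ℕ)) : Prop := {r | r ∈ R ∧ r.1 ∈ Ex s ∧ r.2 ∈ Ex s}.Finite

/-- from the correlation of the centred indicators to the pair bound -/
lemma pair_of_corr {b0 b1 : ℝ} {p q : ℕ} {u v : ℝ → ℝ} (hu : Measurable u) (hv : Measurable v)
    {K1 K2 : ℝ} (hK1 : 0 ≤ K1)
    (hLp : ∀ t ∈ Set.Ioc b0 b1, LL p (u t) ≤ K1 * wt p)
    (hLq : ∀ t ∈ Set.Ioc b0 b1, LL q (v t) ≤ K1 * wt q)
    (hfp : ∫ t in Set.Ioc b0 b1, ff p (u t) ≤ K1 * wt p)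
    (hfq : ∫ t in Set.Ioc b0 b1, ff q (v t) ≤ K1 * wt q)
    (hc : |∫ t in Set.Ioc b0 b1, gg p (u t) * gg q (v t)| ≤ K2 * (wt p * wt q)) :
    ∫ t in Set.Ioc b0 b1, ff p (u t) * ff q (v t) ≤ (2 * K1 ^ 2 + K2) * (wt p * wt q) := by
  have hwp := wt_nonneg p
  have hwq := wt_nonneg q
  have m1 : Measurable fun t => ff p (u t) := (measurable_ff p).comp hu
  have m2 : Measurable fun t => ff q (v t) := (measurable_ff q).comp hv
  have m3 : Measurable fun t => gg p (u t) := (measurable_gg p).comp hu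
  have m4 : Measurable fun t => gg q (v t) := (measurable_gg q).comp hv
  have bdd : ∀ {F : ℝ → ℝ}, Measurable F → ∀ M : ℝ, (∀ x, |F x| ≤ M) →
      IntegrableOn F (Set.Ioc b0 b1) := fun hF M hF1 =>
    Measure.integrableOn_of_bounded (M := M) (by simp) hF.aestronglyMeasurable
      (Eventually.of_forall fun x => by rw [Real.norm_eq_abs]; exact hF1 x)
  have i0 : IntegrableOn (fun t => ff p (u t) * ff q (v t)) (Set.Ioc b0 b1) :=
    bdd (m1.mul m2) 1 fun t => by
      rw [abs_of_nonneg (mul_nonneg (ff_nonneg _ _) (ff_nonneg _ _))]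
      exact mul_le_one₀ (ff_le_one _ _) (ff_nonneg _ _) (ff_le_one _ _)
  have i1 : IntegrableOn (fun t => gg p (u t) * gg q (v t)) (Set.Ioc b0 b1) :=
    bdd (m3.mul m4) 1 fun t => by
      rw [abs_mul]
      exact mul_le_one₀ (abs_gg_le_one _ _) (abs_nonneg _) (abs_gg_le_one _ _)
  have i2 : IntegrableOn (fun t => ff p (u t)) (Set.Ioc b0 b1) :=
    bdd m1 1 fun t => by rw [abs_of_nonneg (ff_nonneg _ _)]; exact ff_le_one _ _
  have i3 : IntegrableOn (fun t => ff q (v t)) (Set.Ioc b0 b1) :=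
    bdd m2 1 fun t => by rw [abs_of_nonneg (ff_nonneg _ _)]; exact ff_le_one _ _
  have hle : ∫ t in Set.Ioc b0 b1, ff p (u t) * ff q (v t) ≤
      ∫ t in Set.Ioc b0 b1, (gg p (u t) * gg q (v t) + K1 * wt p * ff q (v t)) +
        K1 * wt q * ff p (u t) := by
    refine setIntegral_mono_on i0 ((i1.add (i3.const_mul _)).add (i2.const_mul _))
      measurableSet_Ioc fun t ht => ?_
    have e1 := hLp t ht
    have e2 := hLq t ht
    have e3 := ff_nonneg p (u t)
    have e4 := ff_nonneg q (v t)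
    have e5 := LL_nonneg p (u t)
    have e6 := LL_nonneg q (v t)
    have e7 : ff p (u t) * ff q (v t) = gg p (u t) * gg q (v t) + LL p (u t) * ff q (v t) +
        LL q (v t) * ff p (u t) - LL p (u t) * LL q (v t) := by
      unfold gg
      ring
    have e8 := mul_le_mul_of_nonneg_right e1 e4
    have e9 := mul_le_mul_of_nonneg_right e2 e3
    have e10 := mul_nonneg e5 e6
    rw [e7]
    linarith
  have i4 : IntegrableOn (fun t => gg p (u t) * gg q (v t) + K1 * wt p * ff q (v t))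
      (Set.Ioc b0 b1) := i1.add (i3.const_mul _)
  rw [integral_add i4 (i2.const_mul _), integral_add i1 (i3.const_mul _), integral_const_mul,
    integral_const_mul] at hle
  have e1 := (le_abs_self _).trans hc
  have e2 : K1 * wt p * ∫ t in Set.Ioc b0 b1, ff q (v t) ≤ K1 * wt p * (K1 * wt q) :=
    mul_le_mul_of_nonneg_left hfq (mul_nonneg hK1 hwp)
  have e3 : K1 * wt q * ∫ t in Set.Ioc b0 b1, ff p (u t) ≤ K1 * wt q * (K1 * wt p) :=
    mul_le_mul_of_nonneg_left hfp (mul_nonneg hK1 hwq)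
  calc _ ≤ _ := hle
    _ ≤ K2 * (wt p * wt q) + K1 * wt p * (K1 * wt q) + K1 * wt q * (K1 * wt p) :=
      add_le_add (add_le_add e1 e2) e3
    _ = _ := by ring

end Pool.Agent.V11287.MS
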