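import Pool.Agent.V11287.MS.Conv
import Pool.Agent.Y719.Mer.Open

set_option autoImplicit false

/-!
Pairs of exponents along curve families.
-/

namespace Pool.Agent.V11287.MS

open Finset Filter Topology MeasureTheory
open Pool.Agent.TH888.C (ae_win)
open Pool.Agent.W66C (Cur near_c mid_loc one_loc ne_nat_ae)
open Pool.Agent.H447R2.ML (Loc ff_eq_floor)
open Pool.Agent.H305R2 (roughPart ff gg LL measurable_ff measurable_gg ff_nonneg ff_le_one)

/-- **The pair bound for a curve family.** -/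
theorem cur_pairs {c0 : ℝ} (hc0 : 0 ≤ c0) {h1 : ℝ → ℝ} {y y' y'' : ℕ → ℝ → ℝ}
    (hym : ∀ p, Measurable (y p))
    (hfam : ∀ a0 a1 : ℝ, c0 < a0 → a0 < a1 → ∃ D : ℝ, 0 ≤ D ∧
      ∀ᶠ p : ℕ in atTop, Cur a0 a1 D h1 p (y p) (y' p) (y'' p)) {b0 b1 : ℝ} (hb0 : c0 < b0)
    (hb01 : b0 < b1) :
    ∃ K : ℝ, 0 ≤ K ∧ ∃ P : ℕ, (∀ q ≥ P, ∫ t in Set.Ioc b0 b1, ff q (y q t) ≤ K * wt q) ∧
      ∀ p ≥ P, ∀ q, p < q →
        ∫ t in Set.Ioc b0 b1, ff p (y p t) * ff q (y q t) ≤ K * (wt p * wt q) := by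
  set a0 := (c0 + b0) / 2 with ha0d
  set a1 := b1 + 1 with ha1d
  have ha0 : 0 < a0 := by rw [ha0d]; linarith
  have h0 : a0 < b0 := by rw [ha0d]; linarith
  have h1' : b1 < a1 := by rw [ha1d]; linarith
  obtain ⟨D, hD, hev⟩ := hfam a0 a1 (by rw [ha0d]; linarith) (by linarith)
  obtain ⟨P0, hP0⟩ := eventually_atTop.1 hev
  obtain ⟨K2, hK2, P2, hmid⟩ := mid_loc ha0 hD h0 hb01 h1'
  obtain ⟨K3, hK3, P3, hnear⟩ := near_c (h1 := h1) (h2 := h1) ha0 hD h0 hb01 h1'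
    (by norm_num : (0 : ℝ) < 3 / 4) (by norm_num)
  obtain ⟨K5, hK5, P5, hP53, hone⟩ := one_loc ha0 hD h0 hb01 h1'
  refine ⟨K5 + (2 * K5 ^ 2 + K2) + 2 * K3, by positivity, P0 + P2 + P3 + P5 + 3,
    fun q hq => ?_, fun p hp q hpq => ?_⟩
  · have e1 := ((hone q (by omega)).2 _ _ (hP0 q (by omega)).loc).2.2.1
    have hw := wt_nonneg q
    have e2 : 0 ≤ (2 * K5 ^ 2 + K2) * wt q := by positivity
    have e3 : 0 ≤ 2 * K3 * wt q := by positivity
    have e4 : ∫ t in Set.Ioc b0 b1, ff q (y q t) ≤ K5 * wt q := e1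
    linarith
  · have hwp := wt_nonneg p
    have hwq := wt_nonneg q
    have hw := mul_nonneg hwp hwq
    have f1 : 0 ≤ K5 * (wt p * wt q) := by positivity
    have f2 : 0 ≤ (2 * K5 ^ 2 + K2) * (wt p * wt q) := by positivity
    have f3 : 0 ≤ 2 * K3 * (wt p * wt q) := by positivity
    rcases le_or_gt q (2 * p) with hq2 | hq2
    · have e2 := hnear p (by omega) q hpq.le hq2 _ _ _ _ _ _ (hP0 p (by omega)) (hP0 q (by omega))
        (fun t ht => by
          have h2 := abs_le.1 ((hP0 p (by omega)).slope t ht)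
          have h3 := abs_le.1 ((hP0 q (by omega)).slope t ht)
          have h4 : (p : ℝ) + 1 ≤ q := by exact_mod_cast hpq
          linarith [h2.1, h2.2, h3.1, h3.2])
      have hp3 : (3 : ℝ) ≤ p := by exact_mod_cast (by omega : 3 ≤ p)
      have hlp : 0 < Real.log p := Real.log_pos (by linarith)
      have hpq' : (p : ℝ) ≤ q := by exact_mod_cast hpq.le
      have hq2' : (q : ℝ) ≤ 2 * p := by exact_mod_cast hq2
      have hwpq : wt p ≤ 2 * wt q := by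
        unfold wt
        have hl : Real.log p ≤ Real.log q := Real.log_le_log (by linarith) hpq'
        calc Real.log p / p ≤ Real.log q / (q / 2) :=
              div_le_div₀ (by linarith) hl (by linarith) (by linarith)
          _ = _ := by ring
      have e3 : K3 * (Real.log p / p) ^ 2 ≤ 2 * K3 * (wt p * wt q) := by
        have : (Real.log p / p) ^ 2 = wt p * wt p := by unfold wt; ring
        rw [this]
        calc K3 * (wt p * wt p) ≤ K3 * (wt p * (2 * wt q)) := by gcongr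
          _ = _ := by ring
      linarith
    · have e1 := hmid p (by omega) q hq2.le _ _ _ _ (hP0 p (by omega)).loc (hP0 q (by omega)).loc
      have g1 := (hone p (by omega)).2 _ _ (hP0 p (by omega)).loc
      have g2 := (hone q (by omega)).2 _ _ (hP0 q (by omega)).loc
      have e2 := pair_of_corr (hym p) (hym q) hK5.le g1.2.1 g2.2.1 g1.2.2.1 g2.2.2.1 e1
      linarith

/-- **Sparse sets of pairs, curve families.** -/
theorem cur_ae {c0 : ℝ} (hc0 : 0 ≤ c0) {h1 : ℝ → ℝ} {y y' y'' : ℕ → ℝ → ℝ}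
    (hym : ∀ p, Measurable (y p))
    (hfam : ∀ a0 a1 : ℝ, c0 < a0 → a0 < a1 → ∃ D : ℝ, 0 ≤ D ∧
      ∀ᶠ p : ℕ in atTop, Cur a0 a1 D h1 p (y p) (y' p) (y'' p))
    {R : Set (ℕ × ℕ)} (hR : ∀ r ∈ R, r.1 < r.2)
    (hs : Summable (R.indicator fun r => wt r.1 * wt r.2)) :
    ∀ᵐ t : ℝ, c0 < t →
      {r | r ∈ R ∧ 2 ≤ r.1 ∧ ff r.1 (y r.1 t) = 1 ∧ ff r.2 (y r.2 t) = 1}.Finite ∧
      ∀ p, {q | 2 ≤ p ∧ (p, q) ∈ R ∧ ff q (y q t) = 1}.Finite := by
  refine ae_win fun b0 b1 hb0 hb01 => ?_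
  have hfin : IsFiniteMeasure (volume.restrict (Set.Ioc b0 b1)) := ⟨by simp⟩
  obtain ⟨K, hK, P, h2, h3⟩ := cur_pairs hc0 hym hfam hb0 hb01
  exact abs_sparse (μ := volume.restrict (Set.Ioc b0 b1)) (f := fun p t => ff p (y p t))
    (fun q => (measurable_ff q).comp (hym q)) (fun q t => ff_nonneg _ _)
    (fun q t => ff_le_one _ _) (fun r => le_rfl) hK h2 h3 hR hs

/-- **Sparse sets of pairs for the integer parts of a curve family.** -/
theorem pairs_val {c0 : ℝ} (hc0 : 0 ≤ c0) {h1 : ℝ → ℝ} {y y' y'' : ℕ → ℝ → ℝ}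
    (hym : ∀ p, Measurable (y p))
    (hfam : ∀ a0 a1 : ℝ, c0 < a0 → a0 < a1 → ∃ D : ℝ, 0 ≤ D ∧
      ∀ᶠ p : ℕ in atTop, Cur a0 a1 D h1 p (y p) (y' p) (y'' p)) {val : ℕ → ℝ → ℝ}
    (hval : ∀ t, c0 < t → ∀ᶠ p : ℕ in atTop, p.Prime → 0 < val p t ∧ Real.log (val p t) = y p t)
    {R : Set (ℕ × ℕ)} (hR : ∀ r ∈ R, r.1 < r.2)
    (hs : Summable (R.indicator fun r => wt r.1 * wt r.2)) :
    ∀ᵐ t : ℝ, c0 < t → PF (fun p => ⌊val p t⌋₊) R := by
  filter_upwards [cur_ae hc0 hym hfam hR hs, ne_nat_ae hfam] with t h2 h3 htc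
  obtain ⟨P1, hP1⟩ := h3 htc
  obtain ⟨P2, hP2⟩ := eventually_atTop.1 (hval t htc)
  obtain ⟨hA, hB⟩ := h2 htc
  refine fin_of (g := fun p => ff p (y p t)) (P := P1 + P2) (fun p hp => hp.1.two_le)
    (fun p hp hpP => ?_) hR hA hB
  obtain ⟨h4, h5⟩ := hP2 p (by omega) hp.1
  show ff p (y p t) = 1
  rw [← h5, ff_eq_floor h4 fun m hm => hP1 p (by omega) m ?_]
  · exact if_pos hp.2
  · rw [← h5, Real.exp_log h4]
    exact hm

end Pool.Agent.V11287.MS
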