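import Pool.Agent.V11287.MS.Curve

set_option autoImplicit false

/-!
Pairs of exponents for `A x * x ^ p - B x * c x ^ p`, almost every `x`.
-/

namespace Pool.Agent.V11287.MS

open Finset Filter Topology MeasureTheory
open Pool.Agent.TH888.C (ae_win)
open Pool.Agent.W66C (Cur near_c ne_nat_ae)
open Pool.Agent.W66X (ae_of_exp')
open Pool.Agent.H447R2.ML (ff_eq_floor)
open Pool.Agent.H305R2 (roughPart ff measurable_ff ff_nonneg ff_le_one)
open Pool.Agent.Y719.Mer (z1 z2 small_pert cur_of_small contdiff_der')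

/-- the functions in the logarithmic variable -/
noncomputable def fR (A B : ℝ → ℝ) (t : ℝ) : ℝ := -(B (Real.exp t) / A (Real.exp t))
noncomputable def fρ (c : ℝ → ℝ) (t : ℝ) : ℝ := c (Real.exp t) * Real.exp (-t)
noncomputable def fH (A : ℝ → ℝ) (t : ℝ) : ℝ := Real.log (A (Real.exp t))

/-- the phase functions -/
noncomputable def ph (A B c : ℝ → ℝ) (p : ℕ) (t : ℝ) : ℝ :=
  p * t + Real.log (1 + fR A B t * fρ c t ^ p) + fH A t
noncomputable def ph' (A B c : ℝ → ℝ) (p : ℕ) (t : ℝ) : ℝ :=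
  p + z1 (fR A B) (fρ c) p t / (1 + fR A B t * fρ c t ^ p) + deriv (fH A) t
noncomputable def ph'' (A B c : ℝ → ℝ) (p : ℕ) (t : ℝ) : ℝ :=
  (z2 (fR A B) (fρ c) p t * (1 + fR A B t * fρ c t ^ p) - z1 (fR A B) (fρ c) p t *
    z1 (fR A B) (fρ c) p t) / (1 + fR A B t * fρ c t ^ p) ^ 2 + deriv (deriv (fH A)) t

/-- globally defined functions -/
structure GD (A B c : ℝ → ℝ) : Prop where
  hA : ContDiff ℝ 2 A
  hB : ContDiff ℝ 2 B
  hc : ContDiff ℝ 2 c
  pos : ∀ x, 0 < A x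
  lt : ∀ x, 1 < x → |c x| < x

section

variable {A B c : ℝ → ℝ} (h : GD A B c)
include h

lemma GD.R : ContDiff ℝ 2 (fR A B) :=
  ((h.hB.comp Real.contDiff_exp).div (h.hA.comp Real.contDiff_exp) (fun t => (h.pos _).ne')).neg

lemma GD.ρ : ContDiff ℝ 2 (fρ c) :=
  (h.hc.comp Real.contDiff_exp).mul (Real.contDiff_exp.comp contDiff_neg)

lemma GD.H : ContDiff ℝ 2 (fH A) :=
  (h.hA.comp Real.contDiff_exp).log (fun t => (h.pos _).ne')

lemma GD.ρ1 (t : ℝ) (ht : 0 < t) : |fρ c t| < 1 := by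
  have h1 := h.lt (Real.exp t) (Real.one_lt_exp_iff.2 ht)
  unfold fρ
  rw [abs_mul, abs_of_pos (Real.exp_pos _), Real.exp_neg, ← div_eq_mul_inv,
    div_lt_one (Real.exp_pos _)]
  exact h1

lemma GD.fam (a0 a1 : ℝ) (ha0 : (0 : ℝ) < a0) (ha : a0 < a1) : ∃ D : ℝ, 0 ≤ D ∧
    ∀ᶠ p : ℕ in atTop,
      Cur a0 a1 D (deriv (fH A)) p (ph A B c p) (ph' A B c p) (ph'' A B c p) := by
  obtain ⟨g1, g2, g3⟩ := contdiff_der' h.H
  have cH : Continuous (fH A) := h.H.continuous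
  have cH1 : Continuous (deriv (fH A)) := continuous_iff_continuousAt.2 fun t =>
    (g2 t).continuousAt
  obtain ⟨M0, hM0⟩ := isCompact_Icc.exists_bound_of_continuousOn (s := Set.Icc a0 a1)
    (f := fH A) cH.continuousOn
  obtain ⟨M1, hM1⟩ := isCompact_Icc.exists_bound_of_continuousOn (s := Set.Icc a0 a1)
    (f := deriv (fH A)) cH1.continuousOn
  obtain ⟨M2, hM2⟩ := isCompact_Icc.exists_bound_of_continuousOn (s := Set.Icc a0 a1)
    (f := deriv (deriv (fH A))) g3.continuousOn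
  have haI : a0 ∈ Set.Icc a0 a1 := ⟨le_rfl, ha.le⟩
  have k0 : 0 ≤ M0 := (norm_nonneg _).trans (hM0 a0 haI)
  have k1 : 0 ≤ M1 := (norm_nonneg _).trans (hM1 a0 haI)
  have k2 : 0 ≤ M2 := (norm_nonneg _).trans (hM2 a0 haI)
  refine ⟨1 + (M0 + M1 + M2), by positivity, ?_⟩
  filter_upwards [small_pert h.R h.ρ h.ρ1 ha0 ha.le] with p hp
  obtain ⟨e1, e2, e3, e4, e5, e6⟩ := hp
  exact cur_of_small (z := fun t => fR A B t * fρ c t ^ p) e1 e2 e3 e4 e5 e6 (fun t _ => g1 t)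
    (fun t _ => g2 t) g3.continuousOn (fun t ht => (hM0 t ht).trans (by linarith))
    (fun t ht => (hM1 t ht).trans (by linarith)) (fun t ht => (hM2 t ht).trans (by linarith))

lemma GD.meas (p : ℕ) : Measurable (ph A B c p) := by
  have mR : Measurable (fR A B) := h.R.continuous.measurable
  have mρ : Measurable (fρ c) := h.ρ.continuous.measurable
  have mH : Measurable (fH A) := h.H.continuous.measurable
  unfold ph
  fun_prop

lemma GD.val (t : ℝ) (ht : 0 < t) : ∀ᶠ p : ℕ in atTop, p.Prime →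
    0 < A (Real.exp t) * (Real.exp t) ^ p - B (Real.exp t) * c (Real.exp t) ^ p ∧
      Real.log (A (Real.exp t) * (Real.exp t) ^ p - B (Real.exp t) * c (Real.exp t) ^ p) =
        ph A B c p t := by
  filter_upwards [small_pert h.R h.ρ h.ρ1 (a0 := t) (a1 := t) ht le_rfl] with p hp _
  have h4 := abs_le.1 (hp.2.2.2.1 t ⟨le_rfl, le_rfl⟩)
  have hAt := h.pos (Real.exp t)
  have hE : 0 < Real.exp t ^ p := by positivity
  have e0 : (Real.exp (-t)) ^ p * (Real.exp t) ^ p = 1 := by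
    rw [← mul_pow, ← Real.exp_add, neg_add_cancel, Real.exp_zero, one_pow]
  have e1 : A (Real.exp t) * (Real.exp t) ^ p - B (Real.exp t) * c (Real.exp t) ^ p =
      A (Real.exp t) * (Real.exp t) ^ p * (1 + fR A B t * fρ c t ^ p) := by
    have e2 : A (Real.exp t) * (Real.exp t) ^ p * (1 + fR A B t * fρ c t ^ p) =
        A (Real.exp t) * (Real.exp t) ^ p - (A (Real.exp t) / A (Real.exp t)) *
          B (Real.exp t) * c (Real.exp t) ^ p * ((Real.exp (-t)) ^ p * (Real.exp t) ^ p) := by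
      unfold fR fρ
      rw [mul_pow]
      ring
    rw [e2, e0, div_self hAt.ne', one_mul, mul_one]
  have h5 : 0 < 1 + fR A B t * fρ c t ^ p := by linarith [h4.1]
  have h6 : 0 < A (Real.exp t) * (Real.exp t) ^ p := mul_pos hAt hE
  rw [e1]
  refine ⟨mul_pos h6 h5, ?_⟩
  unfold ph fH
  rw [Real.log_mul h6.ne' h5.ne', Real.log_mul hAt.ne' hE.ne', Real.log_pow, Real.log_exp]
  ring

/-- sparse sets of pairs, globally defined functions -/
theorem GD.pairs {R : Set (ℕ × ℕ)} (hR : ∀ r ∈ R, r.1 < r.2)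
    (hs : Summable (R.indicator fun r => wt r.1 * wt r.2)) :
    ∀ᵐ x : ℝ, 1 < x → PF (fun p => ⌊A x * x ^ p - B x * c x ^ p⌋₊) R := by
  have hlaw := pairs_val le_rfl h.meas (fun a0 a1 ha0 ha => h.fam a0 a1 ha0 ha)
    (val := fun p t => A (Real.exp t) * (Real.exp t) ^ p - B (Real.exp t) * c (Real.exp t) ^ p)
    h.val hR hs
  have hfin := ae_of_exp' (P := fun x : ℝ => 1 < x →
    PF (fun p => ⌊A x * x ^ p - B x * c x ^ p⌋₊) R) (by
    filter_upwards [hlaw] with t ht hx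
    exact ht (Real.one_lt_exp_iff.1 hx))
  filter_upwards [hfin] with x hx h1
  exact hx (by linarith) h1

/-- the derivative of the perturbation is small -/
lemma GD.z1_small {a0 a1 ε : ℝ} (ha0 : 0 < a0) (ha : a0 ≤ a1) (hε : 0 < ε) :
    ∀ᶠ p : ℕ in atTop, ∀ t ∈ Set.Icc a0 a1, |z1 (fR A B) (fρ c) p t| ≤ ε := by
  obtain ⟨r1, r2, r3⟩ := contdiff_der' h.R
  obtain ⟨s1, s2, s3⟩ := contdiff_der' h.ρ
  have cR : Continuous (fR A B) := h.R.continuous
  have cρ : Continuous (fρ c) := h.ρ.continuous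
  have cR1 : Continuous (deriv (fR A B)) := continuous_iff_continuousAt.2 fun t =>
    (r2 t).continuousAt
  have cρ1 : Continuous (deriv (fρ c)) := continuous_iff_continuousAt.2 fun t =>
    (s2 t).continuousAt
  obtain ⟨K0, hK0⟩ := isCompact_Icc.exists_bound_of_continuousOn (s := Set.Icc a0 a1)
    (f := fR A B) cR.continuousOn
  obtain ⟨K1, hK1⟩ := isCompact_Icc.exists_bound_of_continuousOn (s := Set.Icc a0 a1)
    (f := deriv (fR A B)) cR1.continuousOn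
  obtain ⟨K3, hK3⟩ := isCompact_Icc.exists_bound_of_continuousOn (s := Set.Icc a0 a1)
    (f := deriv (fρ c)) cρ1.continuousOn
  have haI : a0 ∈ Set.Icc a0 a1 := ⟨le_rfl, ha⟩
  have k0 : 0 ≤ K0 := (norm_nonneg _).trans (hK0 a0 haI)
  have k1 : 0 ≤ K1 := (norm_nonneg _).trans (hK1 a0 haI)
  have k3 : 0 ≤ K3 := (norm_nonneg _).trans (hK3 a0 haI)
  obtain ⟨t0, ht0, hmax⟩ := isCompact_Icc.exists_isMaxOn (s := Set.Icc a0 a1) ⟨a0, haI⟩
    (f := fun t => |fρ c t|) cρ.abs.continuousOn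
  set r := max |fρ c t0| (1 / 2) with hr
  have hr0 : 0 < r := lt_of_lt_of_le (by norm_num) (le_max_right _ _)
  have hr1 : r < 1 := max_lt (h.ρ1 t0 (ha0.trans_le ht0.1)) (by norm_num)
  have hρr : ∀ t ∈ Set.Icc a0 a1, |fρ c t| ≤ r := fun t ht => (hmax ht).trans (le_max_left _ _)
  have hlim : Tendsto (fun p : ℕ => ((K1 + K0 * K3) / r) * ((p : ℝ) ^ 1 * r ^ p)) atTop (𝓝 0) := by
    have h1 := tendsto_pow_const_mul_const_pow_of_abs_lt_one 1 (r := r)
      (by rw [abs_of_pos hr0]; exact hr1)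
    have h2 := h1.const_mul ((K1 + K0 * K3) / r)
    rwa [mul_zero] at h2
  filter_upwards [hlim.eventually_le_const hε, eventually_ge_atTop 1] with p hp hp1 t ht
  obtain ⟨n, rfl⟩ : ∃ n, p = n + 1 := ⟨p - 1, by omega⟩
  have hmain : (K1 + K0 * K3) * (((n + 1 : ℕ) : ℝ) * r ^ n) ≤ ε := by
    refine le_trans (le_of_eq ?_) hp
    rw [pow_one, pow_succ r n]
    field_simp
  have hq1 : (1 : ℝ) ≤ ((n + 1 : ℕ) : ℝ) := by exact_mod_cast hp1
  have hρn : |fρ c t ^ n| ≤ r ^ n := by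
    rw [abs_pow]
    exact pow_le_pow_left₀ (abs_nonneg _) (hρr t ht) _
  have hrn : 0 ≤ r ^ n := by positivity
  have hρn1 : |fρ c t ^ (n + 1)| ≤ ((n + 1 : ℕ) : ℝ) * r ^ n := by
    rw [abs_pow]
    calc |fρ c t| ^ (n + 1) ≤ r ^ (n + 1) := pow_le_pow_left₀ (abs_nonneg _) (hρr t ht) _
      _ ≤ r ^ n := pow_le_pow_of_le_one hr0.le hr1.le (Nat.le_succ n)
      _ ≤ _ := by nlinarith
  unfold z1
  rw [Nat.add_sub_cancel]
  have f1 : |deriv (fR A B) t * fρ c t ^ (n + 1)| ≤ K1 * (((n + 1 : ℕ) : ℝ) * r ^ n) := by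
    rw [abs_mul]
    exact mul_le_mul (hK1 t ht) hρn1 (abs_nonneg _) k1
  have f2 : |fR A B t * (((n + 1 : ℕ) : ℝ) * fρ c t ^ n * deriv (fρ c) t)| ≤
      K0 * K3 * (((n + 1 : ℕ) : ℝ) * r ^ n) := by
    have e1 : fR A B t * (((n + 1 : ℕ) : ℝ) * fρ c t ^ n * deriv (fρ c) t) =
        (fR A B t * deriv (fρ c) t) * (((n + 1 : ℕ) : ℝ) * fρ c t ^ n) := by ring
    rw [e1, abs_mul, abs_mul, abs_mul (((n + 1 : ℕ) : ℝ)), abs_of_nonneg (by linarith :
      (0 : ℝ) ≤ ((n + 1 : ℕ) : ℝ))]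
    exact mul_le_mul (mul_le_mul (hK0 t ht) (hK3 t ht) (abs_nonneg _) k0)
      (mul_le_mul_of_nonneg_left hρn (by linarith)) (by positivity) (by positivity)
  refine (abs_add_le _ _).trans ((add_le_add f1 f2).trans (le_trans (le_of_eq ?_) hmain))
  ring

end

end Pool.Agent.V11287.MS
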